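import Mathlib

/-!
# Operator functions on the circle with partial indices 0 and 1 (MP_d272b1_an, Q1)

We show that the answer to Q1 is negative, in every infinite dimensional complex Hilbert space `H`:
there is `A ∈ 𝒪(𝕋, GL(H))` with exactly the partial indices `0, 1`, `d₁ = d₂ = ∞`, which is
equivalent to no function `F_V`.

The example is `A(z) = z⁻² P + Q₁ + z⁻¹ Q₂ + z (1 - P)`, where `P` is an orthogonal projection of
infinite rank and `Q₁, Q₂ : ran P → ker P` are compact operators such that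
`(x, y) ↦ Q₁ x + Q₂ y` is injective on `ran P × ran P` (in block form: `z⁻²` and `z` on the
diagonal, `Q₁ + z⁻¹ Q₂` below the diagonal).
For `Q₁ = Q₂ = 0` this would be `diag (z⁻², z)`, which has `(-2)`-sections.  As `Q₁, Q₂` are compact,
`A` still has approximate `(-2)`-sections, whereas no `F_V`, and hence nothing equivalent to an
`F_V`, has approximate `(-2)`-sections.
-/

open Complex Metric Set

namespace Pool.Agent.Results.MP_d272b1_an.NotAllFV

universe u

set_option linter.unusedSectionVars false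

/-! ## Definitions used in the statement -/

section Definitions

variable {E : Type u} [NormedAddCommGroup E] [NormedSpace ℂ E]

/-- The point `1/w` of the Riemann sphere `ℂ ∪ {∞}`, where `1/0 = ∞`. -/
noncomputable def sphInv (w : ℂ) : OnePoint ℂ :=
  if w = 0 then OnePoint.infty else ((w⁻¹ : ℂ) : OnePoint ℂ)

/-- `f` is holomorphic on (a neighbourhood of) `𝕋₊ = {|z| ≤ 1}`. -/
def HolPlus (f : ℂ → E) : Prop :=
  AnalyticOnNhd ℂ f (closedBall (0 : ℂ) 1)

/-- `f` is holomorphic on (a neighbourhood of) `𝕋₋ = {1 ≤ |z| ≤ ∞}` in the Riemann sphere;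
this is expressed in the coordinate `w = 1/z`, in which `𝕋₋` is `{|w| ≤ 1}`. -/
def HolMinus (f : OnePoint ℂ → E) : Prop :=
  AnalyticOnNhd ℂ (fun w : ℂ => f (sphInv w)) (closedBall (0 : ℂ) 1)

variable {H : Type u} [NormedAddCommGroup H] [InnerProductSpace ℂ H]

/-- `A ∈ 𝒪(𝕋, GL)`: holomorphic near the unit circle with invertible values. -/
def MemO (A : ℂ → (H →L[ℂ] H)) : Prop :=
  AnalyticOnNhd ℂ A (sphere (0 : ℂ) 1) ∧ ∀ z ∈ sphere (0 : ℂ) 1, IsUnit (A z)

/-- `A ∈ 𝒪(𝕋₊, GL)`. -/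
def MemOPlus (A : ℂ → (H →L[ℂ] H)) : Prop :=
  HolPlus A ∧ ∀ z ∈ closedBall (0 : ℂ) 1, IsUnit (A z)

/-- `A ∈ 𝒪(𝕋₋, GL)` (the points of `𝕋₋` are the points `1/w`, `|w| ≤ 1`). -/
def MemOMinus (A : OnePoint ℂ → (H →L[ℂ] H)) : Prop :=
  HolMinus A ∧ ∀ w ∈ closedBall (0 : ℂ) 1, IsUnit (A (sphInv w))

/-- `S` and `T` are equivalent: `S = A₋ T A₊` on the unit circle for some
`A₋ ∈ 𝒪(𝕋₋, GL)` and `A₊ ∈ 𝒪(𝕋₊, GL)`. -/
def Equivalent (S T : ℂ → (H →L[ℂ] H)) : Prop :=
  ∃ (Am : OnePoint ℂ → (H →L[ℂ] H)) (Ap : ℂ → (H →L[ℂ] H)),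
    MemOMinus Am ∧ MemOPlus Ap ∧ ∀ z ∈ sphere (0 : ℂ) 1, S z = Am z * T z * Ap z

/-- `(φm, φp)` is a `κ`-section of `A`: `φm` and `φp` are holomorphic on `𝕋₋` and `𝕋₊`, and
`z ^ κ φm(z) = A(z) φp(z)` on `𝕋`. -/
structure IsSection (A : ℂ → (H →L[ℂ] H)) (κ : ℤ) (φm : OnePoint ℂ → H) (φp : ℂ → H) :
    Prop where
  minus : HolMinus φm
  plus : HolPlus φp
  eq : ∀ z ∈ sphere (0 : ℂ) 1, z ^ κ • φm z = A z (φp z)

/-- The value `φ(z)` of a section at the point `z` of the Riemann sphere: `φ = φ₊` on `|z| ≤ 1`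
and `φ = φ₋` on `1 < |z| ≤ ∞`. -/
noncomputable def secVal (φm : OnePoint ℂ → H) (φp : ℂ → H) (z : OnePoint ℂ) : H :=
  z.elim (φm OnePoint.infty) (fun w => if ‖w‖ ≤ 1 then φp w else φm (w : OnePoint ℂ))

/-- `ϰ(x, z, A) = κ`: the least integer `k` for which some `k`-section of `A` has the value `x`
at `z` exists and is `κ`. -/
def IsIndex (A : ℂ → (H →L[ℂ] H)) (x : H) (z : OnePoint ℂ) (κ : ℤ) : Prop :=
  IsLeast {k : ℤ | ∃ φm φp, IsSection A k φm φp ∧ secVal φm φp z = x} κ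

/-- The set `{0} ∪ {x ≠ 0 : ϰ(x, z, A) ≤ κ}`. -/
def indexSet (A : ℂ → (H →L[ℂ] H)) (z : OnePoint ℂ) (κ : ℤ) : Set H :=
  {x | x = 0 ∨ (x ≠ 0 ∧ ∃ k ≤ κ, IsIndex A x z k)}

/-- `A` has exactly the partial indices `0` and `1`, with `d₁ = d₂ = ∞`: for every point `z` of
the Riemann sphere, the values of `ϰ(x, z, A)`, `x ≠ 0`, are exactly `0` and `1`, and
`M₁(z) = {0} ∪ {x ≠ 0 : ϰ(x, z, A) ≤ 0}` is a linear subspace with `dim M₁(z) = ∞` and
`dim (H / M₁(z)) = ∞` (and `M₂(z) = H`). -/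
def PartialIndicesZeroOneInfinite (A : ℂ → (H →L[ℂ] H)) : Prop :=
  ∀ z : OnePoint ℂ,
    (∀ x : H, x ≠ 0 → IsIndex A x z 0 ∨ IsIndex A x z 1) ∧
    (∃ x : H, x ≠ 0 ∧ IsIndex A x z 0) ∧ (∃ x : H, x ≠ 0 ∧ IsIndex A x z 1) ∧
    ∃ M₁ : Submodule ℂ H, (M₁ : Set H) = indexSet A z 0 ∧
      ¬ FiniteDimensional ℂ M₁ ∧ ¬ FiniteDimensional ℂ (H ⧸ M₁)

/-- `F` is (on the unit circle) one of the functions `F_V`: there are closed subspaces with
`H = H₁ ⊕ H₂` and `V ∈ L(H₁, H₂)` such that `F(z) = z⁻¹ + V` on `H₁` and `F(z) = z` on `H₂`. -/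
def IsFV (F : ℂ → (H →L[ℂ] H)) : Prop :=
  ∃ (H₁ H₂ : Submodule ℂ H), IsClosed (H₁ : Set H) ∧ IsClosed (H₂ : Set H) ∧ IsCompl H₁ H₂ ∧
    ∃ V : H₁ →L[ℂ] H₂, ∀ z ∈ sphere (0 : ℂ) 1,
      (∀ x : H₁, F z x = z⁻¹ • (x : H) + V x) ∧ (∀ x : H₂, F z x = z • (x : H))

end Definitions

/-! ## Laurent coefficients on the unit circle -/

section Coef

variable {E : Type u} [NormedAddCommGroup E] [NormedSpace ℂ E]

/-- unnormalised Laurent coefficient -/
noncomputable def lc (k : ℤ) (f : ℂ → E) : E := ∮ z in C(0, 1), z ^ (-k - 1) • f z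

lemma sphere_ne_zero {z : ℂ} (hz : z ∈ sphere (0:ℂ) 1) : z ≠ 0 := by
  intro h; simp [h] at hz

lemma lc_congr {k : ℤ} {f g : ℂ → E} (h : ∀ z ∈ sphere (0:ℂ) 1, f z = g z) :
    lc k f = lc k g := by
  unfold lc
  apply circleIntegral.integral_congr zero_le_one
  intro z hz
  simp only [h z hz]

lemma lc_zpow (k m : ℤ) (f : ℂ → E) : lc k (fun z => z ^ m • f z) = lc (k - m) f := by
  unfold lc
  apply circleIntegral.integral_congr zero_le_one
  intro z hz
  have hz0 := sphere_ne_zero hz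
  simp only [smul_smul, ← zpow_add₀ hz0]
  congr 2; ring

lemma circInt_zpow (k : ℤ) {f : ℂ → E} (hf : ContinuousOn f (sphere (0:ℂ) 1)) :
    CircleIntegrable (fun z => z ^ k • f z) 0 1 := by
  apply ContinuousOn.circleIntegrable zero_le_one
  apply ContinuousOn.smul _ hf
  intro z hz
  exact (continuousAt_zpow₀ z k (Or.inl (sphere_ne_zero hz))).continuousWithinAt

lemma lc_add {k : ℤ} {f g : ℂ → E} (hf : ContinuousOn f (sphere (0:ℂ) 1))
    (hg : ContinuousOn g (sphere (0:ℂ) 1)) :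
    lc k (fun z => f z + g z) = lc k f + lc k g := by
  unfold lc
  simp only [smul_add]
  exact circleIntegral.integral_add (circInt_zpow _ hf) (circInt_zpow _ hg)

lemma lc_sub {k : ℤ} {f g : ℂ → E} (hf : ContinuousOn f (sphere (0:ℂ) 1))
    (hg : ContinuousOn g (sphere (0:ℂ) 1)) :
    lc k (fun z => f z - g z) = lc k f - lc k g := by
  unfold lc
  simp only [smul_sub]
  exact circleIntegral.integral_sub (circInt_zpow _ hf) (circInt_zpow _ hg)

lemma lc_clm [CompleteSpace E] {F : Type*} [NormedAddCommGroup F] [NormedSpace ℂ F] [CompleteSpace F]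
    (T : E →L[ℂ] F) {k : ℤ} {f : ℂ → E} (hf : ContinuousOn f (sphere (0:ℂ) 1)) :
    lc k (fun z => T (f z)) = T (lc k f) := by
  unfold lc
  have hci := circInt_zpow (-k-1) hf
  simp only [circleIntegral]
  rw [← ContinuousLinearMap.intervalIntegral_comp_comm]
  · congr 1; ext θ; simp
  · exact hci.out

lemma norm_lc_le {k : ℤ} {f : ℂ → E} {C : ℝ} (hf : ∀ z ∈ sphere (0:ℂ) 1, ‖f z‖ ≤ C) :
    ‖lc k f‖ ≤ 2 * Real.pi * C := by
  unfold lc
  have := circleIntegral.norm_integral_le_of_norm_le_const (c := (0:ℂ)) (R := 1)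
    (f := fun z => z ^ (-k-1) • f z) (C := C) zero_le_one ?_
  · simpa using this
  · intro z hz
    have h1 : ‖z‖ = 1 := by simpa using hz
    rw [norm_smul, norm_zpow, h1, one_zpow, one_mul]
    exact hf z hz

lemma HolPlus.continuousOn {f : ℂ → E} (hf : HolPlus f) : ContinuousOn f (closedBall (0:ℂ) 1) :=
  AnalyticOnNhd.continuousOn hf

lemma HolPlus.continuousOn_sphere {f : ℂ → E} (hf : HolPlus f) :
    ContinuousOn f (sphere (0:ℂ) 1) :=
  hf.continuousOn.mono sphere_subset_closedBall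

/-- F1 -/
lemma lc_plus [CompleteSpace E] {f : ℂ → E} (hf : HolPlus f) {k : ℤ} (hk : k < 0) : lc k f = 0 := by
  unfold lc
  obtain ⟨m, hm⟩ : ∃ m : ℕ, -k - 1 = (m : ℤ) := ⟨(-k-1).toNat, by omega⟩
  rw [hm]
  simp only [zpow_natCast]
  apply Complex.circleIntegral_eq_zero_of_differentiable_on_off_countable zero_le_one
    Set.countable_empty
  · apply ContinuousOn.smul
    · exact (continuous_pow m).continuousOn
    · exact hf.continuousOn
  · intro z hz
    have hz' : z ∈ closedBall (0:ℂ) 1 := ball_subset_closedBall hz.1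
    exact DifferentiableAt.smul (differentiableAt_pow m) (hf z hz').differentiableAt

/-- F5 -/
lemma lc_zero [CompleteSpace E] {f : ℂ → E} (hf : HolPlus f) : lc 0 f = (2 * Real.pi * I : ℂ) • f 0 := by
  have h := DifferentiableOn.circleIntegral_sub_inv_smul (R := 1) (c := 0) (w := 0) (f := f)
    (fun z hz => (hf z hz).differentiableAt.differentiableWithinAt) (by simp)
  rw [← h]
  unfold lc
  congr 1
  ext z
  simp

/-- F3 -/
lemma eq_zero_of_lc [CompleteSpace E] {f : ℂ → E} (hf : HolPlus f) (h : ∀ k : ℤ, 0 ≤ k → lc k f = 0) :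
    ∀ z ∈ closedBall (0:ℂ) 1, f z = 0 := by
  have hd : DiffContOnCl ℂ f (ball (0:ℂ) ((1:NNReal):ℝ)) := by
    constructor
    · intro z hz
      exact (hf z (ball_subset_closedBall hz)).differentiableAt.differentiableWithinAt
    · have : closure (ball (0:ℂ) ((1:NNReal):ℝ)) = closedBall 0 1 := by
        simpa using closure_ball (0:ℂ) (one_ne_zero (α := ℝ))
      rw [this]; exact hf.continuousOn
  have hps := hd.hasFPowerSeriesOnBall (by norm_num)
  have hball : ∀ z ∈ ball (0:ℂ) 1, f z = 0 := by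
    intro z hz
    have hz' : z ∈ Metric.eball (0:ℂ) ((1:NNReal):ENNReal) := by
      rw [Metric.eball_coe]; simpa using hz
    have hs := hps.hasSum hz'
    have hzero : ∀ n : ℕ, ((cauchyPowerSeries f 0 ((1:NNReal):ℝ) n) fun _ => z) = 0 := by
      intro n
      rw [cauchyPowerSeries_apply]
      have h2 : (∮ (w : ℂ) in C(0, ((1:NNReal):ℝ)), (z / (w - 0)) ^ n • (w - 0)⁻¹ • f w)
          = z ^ n • lc (n : ℤ) f := by
        unfold lc
        rw [← circleIntegral.integral_smul]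
        apply circleIntegral.integral_congr (by norm_num)
        intro w hw
        have hw0 : w ≠ 0 := by
          intro h; simp [h] at hw
        simp only [sub_zero, smul_smul]
        congr 1
        rw [div_pow, zpow_sub₀ hw0, zpow_neg, zpow_natCast, zpow_one]
        field_simp
      rw [h2, h n (by positivity)]
      simp
    simp only [hzero, zero_add] at hs
    exact hs.unique hasSum_zero
  have hcl : closure (ball (0:ℂ) 1) = closedBall 0 1 := closure_ball _ one_ne_zero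
  have hcont : ContinuousOn f (closure (ball (0:ℂ) 1)) := by rw [hcl]; exact hf.continuousOn
  have : EqOn f (fun _ => 0) (closure (ball (0:ℂ) 1)) :=
    EqOn.of_subset_closure (s := ball (0:ℂ) 1) (fun z hz => hball z hz) hcont continuousOn_const
      subset_closure subset_rfl
  intro z hz
  exact this (by rw [hcl]; exact hz)

lemma sphInv_of_ne {w : ℂ} (hw : w ≠ 0) : sphInv w = ((w⁻¹ : ℂ) : OnePoint ℂ) := by
  simp [sphInv, hw]

lemma coe_eq_sphInv {z : ℂ} (hz : z ≠ 0) : (z : OnePoint ℂ) = sphInv z⁻¹ := by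
  rw [sphInv_of_ne (inv_ne_zero hz), inv_inv]

/-- reflection -/
lemma lc_reflect (k : ℤ) (f : ℂ → E) : lc k (fun z => f z⁻¹) = lc (-k) f := by
  unfold lc
  simp only [circleIntegral]
  set g : ℝ → E := fun θ => deriv (circleMap 0 1) θ • circleMap 0 1 θ ^ (-(-k) - 1) • f (circleMap 0 1 θ) with hg
  have h1 : ∀ θ : ℝ, deriv (circleMap 0 1) θ • circleMap 0 1 θ ^ (-k - 1) • f (circleMap 0 1 θ)⁻¹ = g (-θ) := by
    intro θ
    simp only [hg]
    have hinv : (circleMap 0 1 θ)⁻¹ = circleMap 0 1 (-θ) := by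
      simp [circleMap, ← Complex.exp_neg]
    have hne : circleMap 0 1 (-θ) ≠ 0 := by simp [circleMap]
    have h3 : circleMap 0 1 θ = (circleMap 0 1 (-θ))⁻¹ := by rw [← hinv, inv_inv]
    rw [hinv, deriv_circleMap, deriv_circleMap, smul_smul, smul_smul]
    congr 1
    rw [h3, inv_zpow', mul_right_comm, mul_right_comm (circleMap 0 1 (-θ))]
    congr 1
    have : -(-k - 1) = -(-k) - 1 + 1 + 1 := by ring
    rw [this, zpow_add₀ hne, zpow_add₀ hne]
    simp only [zpow_one]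
    field_simp
  simp only [h1]
  rw [intervalIntegral.integral_comp_neg]
  have hper : Function.Periodic g (2 * Real.pi) := by
    intro θ
    simp only [hg]
    rw [deriv_circleMap, deriv_circleMap, periodic_circleMap 0 1 θ]
  have := hper.intervalIntegral_add_eq (-(2*Real.pi)) 0
  simpa using this

/-- F2 -/
lemma lc_minus [CompleteSpace E] {f : OnePoint ℂ → E} (hf : HolMinus f) {k : ℤ} (hk : 0 < k) :
    lc k (fun z : ℂ => f z) = 0 := by
  have h1 : lc k (fun z : ℂ => f z) = lc k (fun z : ℂ => (fun w => f (sphInv w)) z⁻¹) := by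
    apply lc_congr
    intro z hz
    rw [coe_eq_sphInv (sphere_ne_zero hz)]
  rw [h1, lc_reflect k (fun w => f (sphInv w))]
  exact lc_plus hf (by omega)

lemma HolMinus.continuousOn_sphere {f : OnePoint ℂ → E} (hf : HolMinus f) :
    ContinuousOn (fun z : ℂ => f z) (sphere (0:ℂ) 1) := by
  have h1 : ContinuousOn (fun w : ℂ => f (sphInv w)) (sphere (0:ℂ) 1) :=
    (AnalyticOnNhd.continuousOn hf).mono sphere_subset_closedBall
  have h2 : ContinuousOn (fun z : ℂ => z⁻¹) (sphere (0:ℂ) 1) :=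
    continuousOn_inv₀.mono (fun z hz => sphere_ne_zero hz)
  have h3 : MapsTo (fun z : ℂ => z⁻¹) (sphere (0:ℂ) 1) (sphere (0:ℂ) 1) := by
    intro z hz
    simpa using hz
  have h4 := h1.comp h2 h3
  refine h4.congr ?_
  intro z hz
  simp only [Function.comp]
  rw [coe_eq_sphInv (sphere_ne_zero hz)]

lemma minus_eq_zero [CompleteSpace E] {f : OnePoint ℂ → E} (hf : HolMinus f)
    (h : ∀ z ∈ sphere (0:ℂ) 1, f z = 0) : ∀ w ∈ closedBall (0:ℂ) 1, f (sphInv w) = 0 := by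
  apply eq_zero_of_lc (f := fun w => f (sphInv w)) hf
  intro k hk
  have : lc k (fun w => f (sphInv w)) = lc k (fun _ => (0:E)) := by
    apply lc_congr
    intro z hz
    rw [sphInv_of_ne (sphere_ne_zero hz)]
    apply h
    simpa using hz
  rw [this]
  simp [lc, circleIntegral]

end Coef


section Main

variable {H : Type u} [NormedAddCommGroup H] [InnerProductSpace ℂ H]

lemma secVal_infty (φm : OnePoint ℂ → H) (φp : ℂ → H) :
    secVal φm φp OnePoint.infty = φm OnePoint.infty := rfl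

lemma secVal_coe (φm : OnePoint ℂ → H) (φp : ℂ → H) (w : ℂ) :
    secVal φm φp (w : OnePoint ℂ) = if ‖w‖ ≤ 1 then φp w else φm (w : OnePoint ℂ) := rfl

/-- coordinate 1/z -/
noncomputable def pinv (z : OnePoint ℂ) : ℂ := z.elim 0 (fun w => w⁻¹)

lemma pinv_coe (w : ℂ) : pinv (w : OnePoint ℂ) = w⁻¹ := rfl
lemma pinv_infty : pinv OnePoint.infty = 0 := rfl

lemma pinv_sphInv (w : ℂ) : pinv (sphInv w) = w := by
  by_cases hw : w = 0
  · simp [sphInv, hw, pinv_infty]
  · rw [sphInv_of_ne hw, pinv_coe, inv_inv]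

/-- points -/
lemma sphere_cases (z : OnePoint ℂ) : (∃ w : ℂ, z = w ∧ ‖w‖ ≤ 1) ∨
    (∃ w : ℂ, ‖w‖ < 1 ∧ z = sphInv w ∧ pinv z = w ∧ ∀ (φm : OnePoint ℂ → H) (φp : ℂ → H),
      secVal φm φp z = φm z) := by
  induction z using OnePoint.rec with
  | infty =>
    right
    refine ⟨0, by simp, by simp [sphInv], rfl, fun φm φp => rfl⟩
  | coe w =>
    by_cases hw : ‖w‖ ≤ 1
    · left; exact ⟨w, rfl, hw⟩
    · right
      push Not at hw
      have hw0 : w ≠ 0 := by
        intro h; rw [h, norm_zero] at hw; linarith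
      refine ⟨w⁻¹, ?_, coe_eq_sphInv hw0, rfl, ?_⟩
      · rw [norm_inv]; exact inv_lt_one_of_one_lt₀ hw
      · intro φm φp
        rw [secVal_coe, if_neg (not_le.mpr hw)]

structure Data (P Q₁ Q₂ : H →L[ℂ] H) : Prop where
  PP : ∀ x, P (P x) = P x
  PQ₁ : ∀ x, P (Q₁ x) = 0
  PQ₂ : ∀ x, P (Q₂ x) = 0
  Q₁P : ∀ x, Q₁ (P x) = Q₁ x
  Q₂P : ∀ x, Q₂ (P x) = Q₂ x
  inj : ∀ x y, Q₁ x + Q₂ y = 0 → P x = 0 ∧ P y = 0

noncomputable def AA (P Q₁ Q₂ : H →L[ℂ] H) (z : ℂ) : H →L[ℂ] H :=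
  (z⁻¹) ^ 2 • P + Q₁ + z⁻¹ • Q₂ + z • (1 - P)

noncomputable def BB (P Q₁ Q₂ : H →L[ℂ] H) (z : ℂ) : H →L[ℂ] H :=
  z ^ 2 • P + z⁻¹ • (1 - P) - z • Q₁ - Q₂

variable {P Q₁ Q₂ : H →L[ℂ] H}

lemma AA_apply (z : ℂ) (x : H) : AA P Q₁ Q₂ z x = (z⁻¹) ^ 2 • P x + Q₁ x + z⁻¹ • Q₂ x + z • (x - P x) := by
  simp [AA]

lemma BB_apply (z : ℂ) (x : H) : BB P Q₁ Q₂ z x = z ^ 2 • P x + z⁻¹ • (x - P x) - z • Q₁ x - Q₂ x := by
  simp [BB]

lemma Data.AB (h : Data P Q₁ Q₂) {z : ℂ} (hz : z ≠ 0) (x : H) : AA P Q₁ Q₂ z (BB P Q₁ Q₂ z x) = x := by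
  have hQQ : ∀ x, Q₁ (Q₁ x) = 0 := fun x => by rw [← h.Q₁P, h.PQ₁, map_zero]
  have hQQ' : ∀ x, Q₁ (Q₂ x) = 0 := fun x => by rw [← h.Q₁P, h.PQ₂, map_zero]
  have hQQ2 : ∀ x, Q₂ (Q₁ x) = 0 := fun x => by rw [← h.Q₂P, h.PQ₁, map_zero]
  have hQQ2' : ∀ x, Q₂ (Q₂ x) = 0 := fun x => by rw [← h.Q₂P, h.PQ₂, map_zero]
  simp only [AA_apply, BB_apply, map_add, map_sub, map_smul, h.PP, h.PQ₁, h.PQ₂, h.Q₁P, h.Q₂P,
    hQQ, hQQ', hQQ2, hQQ2']
  match_scalars <;> field_simp <;> ring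

lemma Data.BA (h : Data P Q₁ Q₂) {z : ℂ} (hz : z ≠ 0) (x : H) : BB P Q₁ Q₂ z (AA P Q₁ Q₂ z x) = x := by
  have hQQ : ∀ x, Q₁ (Q₁ x) = 0 := fun x => by rw [← h.Q₁P, h.PQ₁, map_zero]
  have hQQ' : ∀ x, Q₁ (Q₂ x) = 0 := fun x => by rw [← h.Q₁P, h.PQ₂, map_zero]
  have hQQ2 : ∀ x, Q₂ (Q₁ x) = 0 := fun x => by rw [← h.Q₂P, h.PQ₁, map_zero]
  have hQQ2' : ∀ x, Q₂ (Q₂ x) = 0 := fun x => by rw [← h.Q₂P, h.PQ₂, map_zero]
  simp only [AA_apply, BB_apply, map_add, map_sub, map_smul, h.PP, h.PQ₁, h.PQ₂, h.Q₁P, h.Q₂P,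
    hQQ, hQQ', hQQ2, hQQ2']
  match_scalars <;> field_simp <;> ring

lemma Data.memO (h : Data P Q₁ Q₂) : MemO (AA P Q₁ Q₂) := by
  constructor
  · intro z hz
    have hz0 := sphere_ne_zero hz
    have h1 : AnalyticAt ℂ (fun z : ℂ => z⁻¹) z := analyticAt_inv hz0
    have h2 : AnalyticAt ℂ (fun z : ℂ => z) z := analyticAt_id
    unfold AA
    exact ((((h1.pow 2).smul analyticAt_const).add analyticAt_const).add
      (h1.smul analyticAt_const)).add (h2.smul analyticAt_const)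
  · intro z hz
    have hz0 := sphere_ne_zero hz
    refine ⟨⟨AA P Q₁ Q₂ z, BB P Q₁ Q₂ z, ?_, ?_⟩, rfl⟩
    · ext x; exact h.AB hz0 x
    · ext x; exact h.BA hz0 x


lemma holPlus_const (x : H) : HolPlus (fun _ : ℂ => x) := fun _ _ => analyticAt_const

lemma holMinus_of {f : OnePoint ℂ → H} {g : ℂ → H} (hg : HolPlus g)
    (h : ∀ w, f (sphInv w) = g w) : HolMinus f := by
  unfold HolMinus
  have : (fun w : ℂ => f (sphInv w)) = g := funext h
  rw [this]; exact hg

/-- 1-sections with prescribed value -/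
lemma Data.sec1 (h : Data P Q₁ Q₂) (z : OnePoint ℂ) (x : H) :
    ∃ φm φp, IsSection (AA P Q₁ Q₂) 1 φm φp ∧ secVal φm φp z = x := by
  rcases sphere_cases (H := H) z with ⟨w, rfl, hw⟩ | ⟨w, hw, hzw, -, hval⟩
  · refine ⟨fun z => (pinv z) ^ 3 • P x + (x - P x) + pinv z • Q₁ x + (pinv z) ^ 2 • Q₂ x,
      fun _ => x, ⟨?_, holPlus_const x, ?_⟩, ?_⟩
    · apply holMinus_of (g := fun w => w ^ 3 • P x + (x - P x) + w • Q₁ x + w ^ 2 • Q₂ x)
      · intro w _
        fun_prop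
      · intro w; simp only [pinv_sphInv]
    · intro z hz
      have hz0 := sphere_ne_zero hz
      simp only [pinv_coe, AA_apply, zpow_one]
      match_scalars <;> field_simp
    · rw [secVal_coe, if_pos hw]
  · refine ⟨fun _ => x, fun z => z ^ 3 • P x + (x - P x) - z ^ 2 • Q₁ x - z • Q₂ x,
      ⟨?_, ?_, ?_⟩, ?_⟩
    · exact holMinus_of (holPlus_const x) (fun _ => rfl)
    · intro w _
      fun_prop
    · intro z hz
      have hz0 := sphere_ne_zero hz
      have := h.AB hz0 (z • x)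
      rw [zpow_one]
      conv_lhs => rw [← this]
      congr 1
      simp only [BB_apply, map_smul]
      match_scalars <;> field_simp
    · rw [hval]

/-- 0-sections with prescribed value in the range of P -/
lemma Data.sec0 (h : Data P Q₁ Q₂) (z : OnePoint ℂ) (x : H) (hx : P x = x) :
    ∃ φm φp, IsSection (AA P Q₁ Q₂) 0 φm φp ∧ secVal φm φp z = x := by
  rcases sphere_cases (H := H) z with ⟨w, rfl, hw⟩ | ⟨w, hw, hzw, -, hval⟩
  · refine ⟨fun z => (pinv z) ^ 2 • x + Q₁ x + pinv z • Q₂ x,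
      fun _ => x, ⟨?_, holPlus_const x, ?_⟩, ?_⟩
    · apply holMinus_of (g := fun w => w ^ 2 • x + Q₁ x + w • Q₂ x)
      · intro w _
        fun_prop
      · intro w; simp only [pinv_sphInv]
    · intro z hz
      have hz0 := sphere_ne_zero hz
      simp only [pinv_coe, AA_apply, zpow_zero, hx, sub_self, smul_zero, add_zero, one_smul]
    · rw [secVal_coe, if_pos hw]
  · refine ⟨fun _ => x, fun z => z ^ 2 • x - z • Q₁ x - Q₂ x,
      ⟨?_, ?_, ?_⟩, ?_⟩
    · exact holMinus_of (holPlus_const x) (fun _ => rfl)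
    · intro w _
      fun_prop
    · intro z hz
      have hz0 := sphere_ne_zero hz
      have := h.AB hz0 x
      rw [zpow_zero, one_smul]
      conv_lhs => rw [← this]
      congr 1
      simp only [BB_apply, hx, sub_self, smul_zero, add_zero]
    · rw [hval]

variable [CompleteSpace H]

lemma HolPlus.clm {F : Type*} [NormedAddCommGroup F] [NormedSpace ℂ F] {f : ℂ → H}
    (hf : HolPlus f) (T : H →L[ℂ] F) : HolPlus (fun z => T (f z)) := by
  intro z hz
  exact (T.analyticAt (f z)).comp (hf z hz)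

lemma HolMinus.clm {F : Type*} [NormedAddCommGroup F] [NormedSpace ℂ F] {f : OnePoint ℂ → H}
    (hf : HolMinus f) (T : H →L[ℂ] F) : HolMinus (fun z => T (f z)) := by
  intro z hz
  exact (T.analyticAt (f (sphInv z))).comp_of_eq (g := T) (f := fun w => f (sphInv w)) (hf z hz) rfl

/-- values vanish if section vanishes -/
lemma secVal_eq_zero {φm : OnePoint ℂ → H} {φp : ℂ → H}
    (hp : ∀ w ∈ closedBall (0:ℂ) 1, φp w = 0)
    (hm : ∀ w ∈ closedBall (0:ℂ) 1, φm (sphInv w) = 0) (z : OnePoint ℂ) :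
    secVal φm φp z = 0 := by
  rcases sphere_cases (H := H) z with ⟨w, rfl, hw⟩ | ⟨w, hw, hzw, -, hval⟩
  · rw [secVal_coe, if_pos hw]
    exact hp w (by simpa using hw)
  · rw [hval, hzw]
    exact hm w (by simpa using hw.le)

/-- no negative sections -/
lemma Data.neg (h : Data P Q₁ Q₂) {k : ℤ} (hk : k < 0) {φm : OnePoint ℂ → H} {φp : ℂ → H}
    (hs : IsSection (AA P Q₁ Q₂) k φm φp) (z : OnePoint ℂ) : secVal φm φp z = 0 := by
  obtain ⟨hm, hp, heq⟩ := hs
  -- first component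
  have e1 : ∀ z ∈ sphere (0:ℂ) 1, P (φp z) = z ^ (k + 2) • P (φm z) := by
    intro z hz
    have hz0 := sphere_ne_zero hz
    have := congrArg P (heq z hz)
    simp only [AA_apply, map_add, map_sub, map_smul, h.PP, h.PQ₁, h.PQ₂, sub_self, smul_zero,
      add_zero] at this
    rw [zpow_add₀ hz0, mul_comm, ← smul_smul, this, smul_smul]
    have : z ^ (2:ℤ) * z⁻¹ ^ 2 = 1 := by
      rw [zpow_ofNat]; field_simp
    rw [this, one_smul]
  have c1 : ∀ j : ℤ, 2 ≤ j → P (lc j φp) = 0 := by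
    intro j hj
    rw [← lc_clm P hp.continuousOn_sphere, lc_congr e1, lc_zpow]
    exact lc_minus (hm.clm P) (by omega)
  -- second component
  have e2 : ∀ z ∈ sphere (0:ℂ) 1, z ^ k • (φm z - P (φm z)) =
      (Q₁ (φp z) + z ^ (-1 : ℤ) • Q₂ (φp z)) + z ^ (1:ℤ) • (φp z - P (φp z)) := by
    intro z hz
    have hz0 := sphere_ne_zero hz
    have := congrArg (fun y => y - P y) (heq z hz)
    simp only [AA_apply, map_add, map_sub, map_smul, h.PP, h.PQ₁, h.PQ₂, sub_self, smul_zero,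
      add_zero] at this
    rw [smul_sub, this, zpow_neg_one, zpow_one]
    module
  have hcp := hp.continuousOn_sphere
  have c2 : Q₁ (lc 0 φp) + Q₂ (lc 1 φp) = 0 := by
    have h1 : lc 0 (fun z : ℂ => z ^ k • (φm z - P (φm z))) = 0 := by
      rw [lc_zpow]
      exact lc_minus (f := fun z => φm z - P (φm z)) (E := H)
        (hm.clm (1 - P)) (by omega)
    have h2 := lc_congr (k := 0) e2
    rw [h1, lc_add, lc_add, lc_zpow, lc_zpow, lc_clm Q₁ hcp, lc_clm Q₂ hcp] at h2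
    · have h3 : lc (0 - 1) (fun z => φp z - P (φp z)) = 0 :=
        lc_plus (f := fun z => φp z - P (φp z)) (hp.clm (1 - P)) (by omega)
      rw [h3, add_zero] at h2
      simpa using h2.symm
    · exact (hp.clm Q₁).continuousOn_sphere
    · apply ContinuousOn.smul _ (hp.clm Q₂).continuousOn_sphere
      intro z hz
      exact (continuousAt_zpow₀ z _ (Or.inl (sphere_ne_zero hz))).continuousWithinAt
    · apply ContinuousOn.add (hp.clm Q₁).continuousOn_sphere
      apply ContinuousOn.smul _ (hp.clm Q₂).continuousOn_sphere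
      intro z hz
      exact (continuousAt_zpow₀ z _ (Or.inl (sphere_ne_zero hz))).continuousWithinAt
    · have hc1 : ContinuousOn (fun z => φp z - P (φp z)) (sphere (0:ℂ) 1) :=
        (hp.clm (1 - P)).continuousOn_sphere
      apply ContinuousOn.smul _ hc1
      intro z hz
      exact (continuousAt_zpow₀ z _ (Or.inl (sphere_ne_zero hz))).continuousWithinAt
  obtain ⟨hP0, hP1⟩ := h.inj _ _ c2
  have hPz : ∀ w ∈ closedBall (0:ℂ) 1, P (φp w) = 0 := by
    apply eq_zero_of_lc (hp.clm P)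
    intro j hj
    rw [lc_clm P hcp]
    rcases eq_or_lt_of_le hj with rfl | hj1
    · exact hP0
    · rcases eq_or_lt_of_le (Int.add_one_le_of_lt hj1) with hj2 | hj2
      · rw [← hj2]; exact hP1
      · exact c1 j (by omega)
  have hQz : ∀ w ∈ closedBall (0:ℂ) 1, Q₁ (φp w) = 0 ∧ Q₂ (φp w) = 0 := by
    intro w hw
    rw [← h.Q₁P, ← h.Q₂P, hPz w hw, map_zero, map_zero]; exact ⟨rfl, rfl⟩
  have hpz : ∀ w ∈ closedBall (0:ℂ) 1, φp w = 0 := by
    apply eq_zero_of_lc hp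
    intro j hj
    have e3 : ∀ z ∈ sphere (0:ℂ) 1, φp z = z ^ (k - 1) • (φm z - P (φm z)) := by
      intro z hz
      have hz0 := sphere_ne_zero hz
      have h4 := e2 z hz
      have hzc := sphere_subset_closedBall hz
      rw [(hQz z hzc).1, (hQz z hzc).2, hPz z hzc, smul_zero, add_zero, zero_add, sub_zero,
        zpow_one] at h4
      rw [zpow_sub_one₀ hz0, mul_comm, ← smul_smul, h4, smul_smul, inv_mul_cancel₀ hz0, one_smul]
    rw [lc_congr e3, lc_zpow]
    exact lc_minus (f := fun z => φm z - P (φm z)) (E := H) (hm.clm (1 - P)) (by omega)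
  apply secVal_eq_zero hpz
  apply minus_eq_zero hm
  intro z hz
  have hz0 := sphere_ne_zero hz
  have h5 := heq z hz
  rw [hpz z (sphere_subset_closedBall hz), map_zero] at h5
  exact (smul_eq_zero.mp h5).resolve_left (zpow_ne_zero _ hz0)

/-- functionals vanishing -/
lemma Data.fun0 {ℓ : H →L[ℂ] ℂ} (hP : ∀ x, ℓ (P x) = 0) (h1 : ∀ x, ℓ (Q₁ x) = 0)
    (h2 : ∀ x, ℓ (Q₂ x) = 0) {φm : OnePoint ℂ → H} {φp : ℂ → H}
    (hs : IsSection (AA P Q₁ Q₂) 0 φm φp) (z : OnePoint ℂ) : ℓ (secVal φm φp z) = 0 := by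
  obtain ⟨hm, hp, heq⟩ := hs
  have e1 : ∀ z ∈ sphere (0:ℂ) 1, ℓ (φp z) = z ^ (-1:ℤ) • ℓ (φm z) := by
    intro z hz
    have hz0 := sphere_ne_zero hz
    have := congrArg ℓ (heq z hz)
    simp only [AA_apply, map_add, map_sub, map_smul, hP, h1, h2, smul_zero,
      add_zero, zero_add, sub_zero, zpow_zero, one_smul] at this
    rw [this, zpow_neg_one, smul_smul, inv_mul_cancel₀ hz0, one_smul]
  have hpz : ∀ w ∈ closedBall (0:ℂ) 1, ℓ (φp w) = 0 := by
    apply eq_zero_of_lc (hp.clm ℓ)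
    intro j hj
    rw [lc_congr e1, lc_zpow]
    exact lc_minus (hm.clm ℓ) (by omega)
  have hmz : ∀ w ∈ closedBall (0:ℂ) 1, ℓ (φm (sphInv w)) = 0 := by
    apply minus_eq_zero (hm.clm ℓ)
    intro z hz
    have hz0 := sphere_ne_zero hz
    have h5 := e1 z hz
    rw [hpz z (sphere_subset_closedBall hz)] at h5
    exact (smul_eq_zero.mp h5.symm).resolve_left (zpow_ne_zero _ hz0)
  rcases sphere_cases (H := H) z with ⟨w, rfl, hw⟩ | ⟨w, hw, hzw, -, hval⟩
  · rw [secVal_coe, if_pos hw]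
    exact hpz w (by simpa using hw)
  · rw [hval, hzw]
    exact hmz w (by simpa using hw.le)

/-- The subspace of values of 0-sections. -/
def valSub (A : ℂ → (H →L[ℂ] H)) (z : OnePoint ℂ) : Submodule ℂ H where
  carrier := {x | ∃ φm φp, IsSection A 0 φm φp ∧ secVal φm φp z = x}
  add_mem' := by
    rintro x y ⟨φm, φp, ⟨h1, h2, h3⟩, rfl⟩ ⟨ψm, ψp, ⟨h1', h2', h3'⟩, rfl⟩
    refine ⟨fun z => φm z + ψm z, fun z => φp z + ψp z, ⟨?_, ?_, ?_⟩, ?_⟩
    · intro w hw; exact (h1 w hw).add (h1' w hw)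
    · intro w hw; exact (h2 w hw).add (h2' w hw)
    · intro z hz; rw [smul_add, h3 z hz, h3' z hz, map_add]
    · rcases sphere_cases (H := H) z with ⟨w, rfl, hw⟩ | ⟨w, hw, hzw, -, hval⟩
      · simp only [secVal_coe, if_pos hw]
      · simp only [hval]
  zero_mem' := by
    refine ⟨fun _ => 0, fun _ => 0, ⟨?_, ?_, ?_⟩, ?_⟩
    · intro w hw; exact analyticAt_const
    · intro w hw; exact analyticAt_const
    · intro z hz; simp
    · rcases sphere_cases (H := H) z with ⟨w, rfl, hw⟩ | ⟨w, hw, hzw, -, hval⟩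
      · simp only [secVal_coe, if_pos hw]
      · simp only [hval]
  smul_mem' := by
    rintro c x ⟨φm, φp, ⟨h1, h2, h3⟩, rfl⟩
    refine ⟨fun z => c • φm z, fun z => c • φp z, ⟨?_, ?_, ?_⟩, ?_⟩
    · intro w hw; exact analyticAt_const.smul (h1 w hw)
    · intro w hw; exact analyticAt_const.smul (h2 w hw)
    · intro z hz; rw [smul_comm, h3 z hz, map_smul]
    · rcases sphere_cases (H := H) z with ⟨w, rfl, hw⟩ | ⟨w, hw, hzw, -, hval⟩
      · simp only [secVal_coe, if_pos hw]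
      · simp only [hval]

/-- extra data -/
structure Data2 (P Q₁ Q₂ : H →L[ℂ] H) (e f : ℕ → H) (ℓ : ℕ → (H →L[ℂ] ℂ)) : Prop extends
    Data P Q₁ Q₂ where
  lin : LinearIndependent ℂ e
  Pe : ∀ n, P (e n) = e n
  ℓP : ∀ n x, ℓ n (P x) = 0
  ℓ₁ : ∀ n x, ℓ n (Q₁ x) = 0
  ℓ₂ : ∀ n x, ℓ n (Q₂ x) = 0
  dual : ∀ m n, ℓ m (f n) = if m = n then 1 else 0
  small : ∀ ε : ℝ, 0 < ε → ∃ x : H, ‖x‖ = 1 ∧ P x = x ∧ ‖Q₁ x‖ ≤ ε ∧ ‖Q₂ x‖ ≤ ε

lemma Data2.indices {e f : ℕ → H} {ℓ : ℕ → (H →L[ℂ] ℂ)} (h : Data2 P Q₁ Q₂ e f ℓ) :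
    PartialIndicesZeroOneInfinite (AA P Q₁ Q₂) := by
  intro z
  have key0 : ∀ x : H, x ≠ 0 → x ∈ valSub (AA P Q₁ Q₂) z → IsIndex (AA P Q₁ Q₂) x z 0 := by
    intro x hx hxm
    refine ⟨hxm, ?_⟩
    rintro k ⟨φm, φp, hs, hv⟩
    by_contra hk
    push Not at hk
    exact hx (hv ▸ h.neg hk hs z)
  have key1 : ∀ x : H, x ≠ 0 → x ∉ valSub (AA P Q₁ Q₂) z → IsIndex (AA P Q₁ Q₂) x z 1 := by
    intro x hx hxm
    refine ⟨h.sec1 z x, ?_⟩
    rintro k ⟨φm, φp, hs, hv⟩
    by_contra hk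
    push Not at hk
    have hk' : k ≤ 0 := by omega
    rcases lt_or_eq_of_le hk' with hk0 | hk0
    · exact hx (hv ▸ h.neg hk0 hs z)
    · subst hk0; exact hxm ⟨φm, φp, hs, hv⟩
  have he : ∀ n, e n ∈ valSub (AA P Q₁ Q₂) z := fun n => h.sec0 z (e n) (h.Pe n)
  have hℓ : ∀ n, ∀ x ∈ valSub (AA P Q₁ Q₂) z, ℓ n x = 0 := by
    rintro n x ⟨φm, φp, hs, rfl⟩
    exact Data.fun0 (h.ℓP n) (h.ℓ₁ n) (h.ℓ₂ n) hs z
  have hf : ∀ n, f n ∉ valSub (AA P Q₁ Q₂) z := by
    intro n hn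
    have := hℓ n _ hn
    rw [h.dual, if_pos rfl] at this
    exact one_ne_zero this
  refine ⟨?_, ⟨e 0, h.lin.ne_zero 0, key0 _ (h.lin.ne_zero 0) (he 0)⟩, ⟨f 0, ?_, ?_⟩,
    valSub (AA P Q₁ Q₂) z, ?_, ?_, ?_⟩
  · intro x hx
    by_cases hxm : x ∈ valSub (AA P Q₁ Q₂) z
    · exact Or.inl (key0 x hx hxm)
    · exact Or.inr (key1 x hx hxm)
  · intro h0; exact hf 0 (h0 ▸ (valSub _ z).zero_mem)
  · exact key1 _ (fun h0 => hf 0 (h0 ▸ (valSub _ z).zero_mem)) (hf 0)
  · ext x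
    constructor
    · intro hx
      by_cases hx0 : x = 0
      · exact Or.inl hx0
      · exact Or.inr ⟨hx0, 0, le_rfl, key0 x hx0 hx⟩
    · rintro (rfl | ⟨hx0, k, hk, hx, -⟩)
      · exact (valSub _ z).zero_mem
      · obtain ⟨φm, φp, hs, hv⟩ := hx
        rcases lt_or_eq_of_le hk with hk0 | rfl
        · exact absurd (hv ▸ h.neg hk0 hs z) hx0
        · exact ⟨φm, φp, hs, hv⟩
  · intro hfin
    have hlin : LinearIndependent ℂ (fun n => (⟨e n, he n⟩ : valSub (AA P Q₁ Q₂) z)) := by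
      apply LinearIndependent.of_comp (valSub (AA P Q₁ Q₂) z).subtype
      exact h.lin
    exact (Infinite.not_finite (α := ℕ)) (hlin.finite)
  · intro hfin
    have hlin : LinearIndependent ℂ (fun n => (valSub (AA P Q₁ Q₂) z).mkQ (f n)) := by
      rw [linearIndependent_iff']
      intro s g hg i hi
      have hg2 : ∑ i ∈ s, g i • f i ∈ valSub (AA P Q₁ Q₂) z := by
        rw [← Submodule.ker_mkQ (valSub (AA P Q₁ Q₂) z), LinearMap.mem_ker, map_sum]
        simpa using hg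
      have h3 := hℓ i _ hg2
      simp only [map_sum, map_smul, h.dual, smul_eq_mul, mul_ite, mul_one, mul_zero] at h3
      rw [Finset.sum_ite_eq, if_pos hi] at h3
      exact h3
    exact (Infinite.not_finite (α := ℕ)) (hlin.finite)


lemma mulap (S T : H →L[ℂ] H) (x : H) : (S * T) x = S (T x) := rfl

/-- normal form of an `F_V`. -/
lemma IsFV.normal {F : ℂ → (H →L[ℂ] H)} (hF : IsFV F) :
    ∃ p q V : H →L[ℂ] H, (∀ x, p x + q x = x) ∧ (∀ x, p (p x) = p x) ∧ (∀ x, q (p x) = 0) ∧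
      (∀ x, p (q x) = 0) ∧ (∀ x, q (q x) = q x) ∧ (∀ x, p (V x) = 0) ∧ (∀ x, q (V x) = V x) ∧
      (∀ x, V (p x) = V x) ∧
      ∀ z ∈ sphere (0:ℂ) 1, ∀ x, F z x = z⁻¹ • p x + V x + z • q x := by
  obtain ⟨H₁, H₂, h1, h2, hc, V, hV⟩ := hF
  have ht : Submodule.IsTopCompl H₁ H₂ := Submodule.IsCompl.isTopCompl_of_isClosed hc h1 h2
  have hpq : ∀ x, H₁.projectionL H₂ ht x + H₂.projectionL H₁ ht.symm x = x :=
    fun x => Submodule.projectionL_add_projectionL_eq_self ht x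
  refine ⟨H₁.projectionL H₂ ht, H₂.projectionL H₁ ht.symm,
    H₂.subtypeL ∘L V ∘L H₁.projectionOntoL H₂ ht, hpq, ?_, ?_, ?_, ?_, ?_, ?_, ?_, ?_⟩
  · intro x
    exact (Submodule.projectionL_eq_self_iff ht _).2 (Submodule.projectionL_apply_mem ht x)
  · intro x
    exact (Submodule.projectionL_apply_eq_zero_iff ht.symm).2 (Submodule.projectionL_apply_mem ht x)
  · intro x
    exact (Submodule.projectionL_apply_eq_zero_iff ht).2 (Submodule.projectionL_apply_mem ht.symm x)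
  · intro x
    exact (Submodule.projectionL_eq_self_iff ht.symm _).2
      (Submodule.projectionL_apply_mem ht.symm x)
  · intro x
    exact (Submodule.projectionL_apply_eq_zero_iff ht).2 (V _).2
  · intro x
    exact (Submodule.projectionL_eq_self_iff ht.symm _).2 (V _).2
  · intro x
    show ((V (H₁.projectionOntoL H₂ ht (H₁.projectionL H₂ ht x)) : H₂) : H) =
      ((V (H₁.projectionOntoL H₂ ht x) : H₂) : H)
    have : H₁.projectionOntoL H₂ ht (H₁.projectionL H₂ ht x) = H₁.projectionOntoL H₂ ht x := by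
      rw [Submodule.projectionL_apply]
      exact Submodule.projectionOntoL_apply_left ht _
    rw [this]
  · intro z hz x
    obtain ⟨hz1, hz2⟩ := hV z hz
    have e1 := hz1 (H₁.projectionOntoL H₂ ht x)
    have e2 := hz2 (H₂.projectionOntoL H₁ ht.symm x)
    rw [← Submodule.projectionL_apply] at e1 e2
    conv_lhs => rw [← hpq x, map_add, e1, e2]
    rfl

lemma Data2.not_equiv {e f : ℕ → H} {ℓ : ℕ → (H →L[ℂ] ℂ)} (h : Data2 P Q₁ Q₂ e f ℓ)
    {F : ℂ → (H →L[ℂ] H)} (hF : IsFV F) : ¬ Equivalent (AA P Q₁ Q₂) F := by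
  rintro ⟨Am, Ap, ⟨hm, hmu⟩, ⟨hp, hpu⟩, heq⟩
  obtain ⟨p, q, V, hpq, hpp, hqp, hpq', hqq, hpV, hqV, hVp, hFz⟩ := hF.normal
  -- the inverse of `Am`
  set B : OnePoint ℂ → (H →L[ℂ] H) := fun z => Ring.inverse (Am z) with hB
  have hBhol : HolMinus B := by
    intro w hw
    obtain ⟨u, hu⟩ := hmu w hw
    have h1 : AnalyticAt ℂ Ring.inverse ((u : H →L[ℂ] H)) := analyticAt_inverse u
    rw [hu] at h1
    exact h1.comp_of_eq (g := Ring.inverse) (f := fun w => Am (sphInv w)) (hm w hw) rfl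
  have hBA : ∀ z ∈ sphere (0:ℂ) 1, B z * Am z = 1 := by
    intro z hz
    have hz0 := sphere_ne_zero hz
    have : IsUnit (Am (z : OnePoint ℂ)) := by
      rw [coe_eq_sphInv hz0]
      apply hmu
      simp only [mem_closedBall, dist_zero_right, norm_inv]
      have : ‖z‖ = 1 := by simpa using hz
      rw [this]; norm_num
    exact Ring.inverse_mul_cancel _ this
  obtain ⟨Mb, hMb⟩ : ∃ Mb, ∀ z ∈ sphere (0:ℂ) 1, ‖B z‖ ≤ Mb := by
    have := (isCompact_sphere (0:ℂ) 1).exists_bound_of_continuousOn hBhol.continuousOn_sphere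
    exact this
  have hMb0 : 0 ≤ Mb := (norm_nonneg _).trans (hMb 1 (by simp))
  obtain ⟨u0, hu0⟩ := hpu 0 (by simp)
  set N : ℝ := ‖((u0⁻¹ : (H →L[ℂ] H)ˣ) : H →L[ℂ] H)‖ with hN
  set K : ℝ := 2 * Real.pi * (2 * Mb) * (‖p‖ + ‖q‖ + ‖V‖ * ‖p‖) with hK
  have hK0 : 0 ≤ K := by positivity
  have hN0 : 0 ≤ N := norm_nonneg _
  set ε : ℝ := 1 / (N * K + 1) with hε
  have hε0 : 0 < ε := by positivity
  obtain ⟨x, hx1, hPx, hQ1, hQ2⟩ := h.small ε hε0
  -- the functions
  set u : ℂ → H := fun z => Ap z x with hu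
  set w : OnePoint ℂ → H := fun z => B z x with hw
  set ρ : ℂ → H := fun z => B z (Q₁ x + z⁻¹ • Q₂ x) with hρ
  have hup : HolPlus u := by
    intro z hz
    exact ((ContinuousLinearMap.apply ℂ H x).analyticAt _).comp_of_eq (hp z hz) rfl
  have hwm : HolMinus w := by
    intro z hz
    exact ((ContinuousLinearMap.apply ℂ H x).analyticAt _).comp_of_eq (f := fun w => B (sphInv w))
      (hBhol z hz) rfl
  have huc := hup.continuousOn_sphere
  have hwc := hwm.continuousOn_sphere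
  have hρc : ContinuousOn ρ (sphere (0:ℂ) 1) := by
    apply ContinuousOn.clm_apply hBhol.continuousOn_sphere
    apply ContinuousOn.add continuousOn_const
    exact ContinuousOn.smul (continuousOn_inv₀.mono (fun z hz => sphere_ne_zero hz))
      continuousOn_const
  have hρb : ∀ z ∈ sphere (0:ℂ) 1, ‖ρ z‖ ≤ 2 * Mb * ε := by
    intro z hz
    have hz1 : ‖z‖ = 1 := by simpa using hz
    calc ‖ρ z‖ ≤ ‖B z‖ * ‖Q₁ x + z⁻¹ • Q₂ x‖ := (B z).le_opNorm _
      _ ≤ Mb * (ε + ε) := by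
        apply mul_le_mul (hMb z hz) _ (norm_nonneg _) hMb0
        refine (norm_add_le _ _).trans (add_le_add hQ1 ?_)
        rw [norm_smul, norm_inv, hz1, inv_one, one_mul]; exact hQ2
      _ = 2 * Mb * ε := by ring
  -- the main identity on the circle
  have main : ∀ z ∈ sphere (0:ℂ) 1,
      z⁻¹ • p (u z) + V (u z) + z • q (u z) = z ^ (-2 : ℤ) • w z + ρ z := by
    intro z hz
    have hz0 := sphere_ne_zero hz
    rw [← hFz z hz]
    have e1 : B z (AA P Q₁ Q₂ z x) = F z (u z) := by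
      rw [heq z hz]
      simp only [mulap]
      rw [← mulap (B z), hBA z hz]
      rfl
    rw [← e1, AA_apply, hPx, sub_self, smul_zero, add_zero, add_assoc, map_add, map_smul]
    congr 2
    rw [zpow_neg, inv_pow]; rfl
  have e1 : ∀ z ∈ sphere (0:ℂ) 1, z ^ (-1:ℤ) • p (u z) = z ^ (-2 : ℤ) • p (w z) + p (ρ z) := by
    intro z hz
    have := congrArg p (main z hz)
    simp only [map_add, map_smul, hpp, hpV, hpq', smul_zero, add_zero] at this
    rw [zpow_neg_one]; exact this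
  have e2 : ∀ z ∈ sphere (0:ℂ) 1, z ^ (1:ℤ) • q (u z) =
      (z ^ (-2 : ℤ) • q (w z) + q (ρ z)) - V (u z) := by
    intro z hz
    have := congrArg q (main z hz)
    simp only [map_add, map_smul, hqp, hqV, hqq, smul_zero, zero_add] at this
    rw [zpow_one, ← this, add_sub_cancel_left]
  have cpw : ∀ m : ℤ, ContinuousOn (fun z : ℂ => z ^ m) (sphere (0:ℂ) 1) := fun m z hz =>
    (continuousAt_zpow₀ z _ (Or.inl (sphere_ne_zero hz))).continuousWithinAt
  have cont1 : ContinuousOn (fun z : ℂ => z ^ (-2 : ℤ) • p (w z)) (sphere (0:ℂ) 1) :=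
    (cpw _).smul (p.continuous.comp_continuousOn hwc)
  have cont2 : ContinuousOn (fun z : ℂ => z ^ (-2 : ℤ) • q (w z)) (sphere (0:ℂ) 1) :=
    (cpw _).smul (q.continuous.comp_continuousOn hwc)
  have cont3 : ContinuousOn (fun z : ℂ => p (ρ z)) (sphere (0:ℂ) 1) :=
    p.continuous.comp_continuousOn hρc
  have cont4 : ContinuousOn (fun z : ℂ => q (ρ z)) (sphere (0:ℂ) 1) :=
    q.continuous.comp_continuousOn hρc
  have a : ∀ k : ℤ, 0 ≤ k → lc k (fun z => p (u z)) = lc (k - 1) (fun z => p (ρ z)) := by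
    intro k hk
    have h1 := lc_congr (k := k - 1) e1
    rw [lc_zpow, lc_add cont1 cont3, lc_zpow, lc_minus (hwm.clm p) (by omega), zero_add] at h1
    rw [← h1]; congr 1; ring
  have b : lc 0 (fun z => q (u z)) = lc 1 (fun z => q (ρ z)) - V (lc 0 (fun z => p (ρ z))) := by
    have h1 := lc_congr (k := 1) e2
    have cont5 : ContinuousOn (fun z : ℂ => z ^ (-2 : ℤ) • q (w z) + q (ρ z))
        (sphere (0:ℂ) 1) := cont2.add cont4
    have cont6 : ContinuousOn (fun z : ℂ => V (u z)) (sphere (0:ℂ) 1) :=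
      V.continuous.comp_continuousOn huc
    rw [lc_zpow, lc_sub cont5 cont6,
      lc_add cont2 cont4, lc_zpow, lc_minus (hwm.clm q) (by omega), zero_add, lc_clm V huc] at h1
    rw [sub_self] at h1
    rw [h1, ← hVp (lc 1 u), ← lc_clm p huc, a 1 (by norm_num)]
    norm_num
  have pb : ∀ k : ℤ, ‖lc k (fun z => p (ρ z))‖ ≤ 2 * Real.pi * (‖p‖ * (2 * Mb * ε)) := by
    intro k
    apply norm_lc_le
    intro z hz
    exact (p.le_opNorm _).trans (mul_le_mul_of_nonneg_left (hρb z hz) (norm_nonneg _))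
  have qb : ∀ k : ℤ, ‖lc k (fun z => q (ρ z))‖ ≤ 2 * Real.pi * (‖q‖ * (2 * Mb * ε)) := by
    intro k
    apply norm_lc_le
    intro z hz
    exact (q.le_opNorm _).trans (mul_le_mul_of_nonneg_left (hρb z hz) (norm_nonneg _))
  have hlc : ‖lc 0 u‖ ≤ K * ε := by
    have h1 : lc 0 u = lc 0 (fun z => p (u z)) + lc 0 (fun z => q (u z)) := by
      rw [lc_clm p huc, lc_clm q huc, hpq]
    rw [h1, a 0 le_rfl, b]
    calc ‖lc (0 - 1) (fun z => p (ρ z)) + (lc 1 (fun z => q (ρ z)) - V (lc 0 (fun z => p (ρ z))))‖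
        ≤ ‖lc (0 - 1) (fun z => p (ρ z))‖ + (‖lc 1 (fun z => q (ρ z))‖ +
          ‖V (lc 0 (fun z => p (ρ z)))‖) :=
          (norm_add_le _ _).trans (add_le_add_right (norm_sub_le _ _) _)
      _ ≤ 2 * Real.pi * (‖p‖ * (2 * Mb * ε)) + (2 * Real.pi * (‖q‖ * (2 * Mb * ε)) +
          ‖V‖ * (2 * Real.pi * (‖p‖ * (2 * Mb * ε)))) := by
          apply add_le_add (pb _) (add_le_add (qb _) _)
          exact (V.le_opNorm _).trans (mul_le_mul_of_nonneg_left (pb _) (norm_nonneg _))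
      _ = K * ε := by rw [hK]; ring
  rw [lc_zero hup, norm_smul] at hlc
  have h2pi : ‖(2 * Real.pi * I : ℂ)‖ = 2 * Real.pi := by
    simp [abs_of_pos Real.pi_pos]
  rw [h2pi] at hlc
  have hxu : x = ((u0⁻¹ : (H →L[ℂ] H)ˣ) : H →L[ℂ] H) (u 0) := by
    simp only [hu, ← hu0]
    rw [← mulap, Units.inv_mul]
    rfl
  have hxn : (1:ℝ) ≤ N * ‖u 0‖ := by
    have := ((u0⁻¹ : (H →L[ℂ] H)ˣ) : H →L[ℂ] H).le_opNorm (u 0)
    rwa [← hxu, hx1] at this
  have hpi : (1:ℝ) ≤ 2 * Real.pi := by linarith [Real.pi_gt_three]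
  have h3 : ‖u 0‖ ≤ K * ε :=
    (le_mul_of_one_le_left (norm_nonneg _) hpi).trans hlc
  have h4 : N * (K * ε) < 1 := by
    rw [hε]
    have : N * (K * (1 / (N * K + 1))) = N * K / (N * K + 1) := by ring
    rw [this, div_lt_one (by positivity)]
    linarith
  linarith [mul_le_mul_of_nonneg_left h3 hN0]


/-- weighted partial isometry `∑ 2⁻ⁿ ⟨v (σ n), ·⟩ v (τ n)`. -/
noncomputable def RR (v : ℕ → H) (σ τ : ℕ → ℕ) : H →L[ℂ] H :=
  ∑' n : ℕ, ((1/2 : ℂ)^n) • ((innerSL ℂ (v (σ n))).smulRight (v (τ n)) : H →L[ℂ] H)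

lemma RR_hasSum {v : ℕ → H} (hv : Orthonormal ℂ v) (σ τ : ℕ → ℕ) (x : H) :
    HasSum (fun n : ℕ => ((1/2 : ℂ)^n * inner ℂ (v (σ n)) x) • v (τ n)) (RR v σ τ x) := by
  have hs : Summable (fun n : ℕ =>
      ((1/2 : ℂ)^n) • ((innerSL ℂ (v (σ n))).smulRight (v (τ n)) : H →L[ℂ] H)) := by
    apply Summable.of_norm_bounded (g := fun n : ℕ => (1/2 : ℝ)^n)
      (summable_geometric_of_lt_one (by norm_num) (by norm_num))
    intro n
    rw [norm_smul, ContinuousLinearMap.norm_smulRight_apply, innerSL_apply_norm, hv.1, hv.1]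
    simp
  have h1 := hs.hasSum.mapL (ContinuousLinearMap.apply ℂ H x)
  have h2 : (ContinuousLinearMap.apply ℂ H x) (∑' n : ℕ,
      ((1/2 : ℂ)^n) • ((innerSL ℂ (v (σ n))).smulRight (v (τ n)) : H →L[ℂ] H)) = RR v σ τ x := rfl
  rw [h2] at h1
  convert h1 using 2 with n
  simp [smul_smul]

lemma RR_inner {v : ℕ → H} (hv : Orthonormal ℂ v) (σ τ : ℕ → ℕ) (x y : H) :
    HasSum (fun n : ℕ => ((1/2 : ℂ)^n * inner ℂ (v (σ n)) x) * inner ℂ y (v (τ n)))
      (inner ℂ y (RR v σ τ x)) := by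
  have := (RR_hasSum hv σ τ x).mapL (innerSL ℂ y)
  simpa [inner_smul_right] using this

lemma RR_inner_single {v : ℕ → H} (hv : Orthonormal ℂ v) (σ τ : ℕ → ℕ)
    (hτ : Function.Injective τ) (x : H) (m : ℕ) :
    inner ℂ (v (τ m)) (RR v σ τ x) = (1/2 : ℂ)^m * inner ℂ (v (σ m)) x := by
  have h1 := RR_inner hv σ τ x (v (τ m))
  have h2 := hasSum_ite_eq m ((1/2 : ℂ)^m * inner ℂ (v (σ m)) x)
  refine h1.unique ?_
  convert h2 using 2 with n
  rw [orthonormal_iff_ite.mp hv]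
  by_cases hn : n = m
  · subst hn; simp
  · rw [if_neg (fun h => hn (hτ h).symm), if_neg hn, mul_zero]

lemma RR_inner_zero {v : ℕ → H} (hv : Orthonormal ℂ v) (σ τ : ℕ → ℕ) (x y : H)
    (hy : ∀ n, inner ℂ y (v (τ n)) = 0) :
    inner ℂ y (RR v σ τ x) = 0 := by
  have h1 := RR_inner hv σ τ x y
  refine h1.unique ?_
  simp [hy]

lemma RR_single {v : ℕ → H} (hv : Orthonormal ℂ v) (σ τ : ℕ → ℕ)
    (hσ : Function.Injective σ) (m : ℕ) :
    RR v σ τ (v (σ m)) = (1/2 : ℂ)^m • v (τ m) := by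
  refine (RR_hasSum hv σ τ (v (σ m))).unique ?_
  convert hasSum_ite_eq m ((1/2 : ℂ)^m • v (τ m)) using 2 with n
  rw [orthonormal_iff_ite.mp hv]
  by_cases hn : n = m
  · subst hn; simp
  · rw [if_neg (fun h => hn (hσ h)), if_neg hn, mul_zero, zero_smul]

lemma exists_orthonormal (hH : ¬ FiniteDimensional ℂ H) : ∃ v : ℕ → H, Orthonormal ℂ v := by
  obtain ⟨w, b, hb⟩ := exists_hilbertBasis ℂ H
  have hw : Infinite w := by
    by_contra hfin
    rw [not_infinite_iff_finite] at hfin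
    have := Fintype.ofFinite w
    exact hH (Module.Basis.finiteDimensional_of_finite b.toOrthonormalBasis.toBasis)
  exact ⟨fun n => b (Infinite.natEmbedding w n),
    b.orthonormal.comp _ (Infinite.natEmbedding w).injective⟩

lemma exists_data (hH : ¬ FiniteDimensional ℂ H) :
    ∃ (P Q₁ Q₂ : H →L[ℂ] H) (e f : ℕ → H) (ℓ : ℕ → (H →L[ℂ] ℂ)), Data2 P Q₁ Q₂ e f ℓ := by
  obtain ⟨v, hv⟩ := exists_orthonormal hH
  set K : Submodule ℂ H := (Submodule.span ℂ (Set.range (fun n : ℕ => v (4 * n)))).topologicalClosure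
    with hK
  have hvK : ∀ n, v (4 * n) ∈ K := fun n =>
    Submodule.le_topologicalClosure _ (Submodule.subset_span ⟨n, rfl⟩)
  have hKo : ∀ x : H, (∀ n, inner ℂ (v (4 * n)) x = 0) → x ∈ Kᗮ := by
    intro x hx
    rw [hK, Submodule.orthogonal_closure, Submodule.mem_orthogonal]
    intro u hu
    induction hu using Submodule.span_induction with
    | mem u hu => obtain ⟨n, rfl⟩ := hu; exact hx n
    | zero => simp
    | add a b _ _ ha hb => rw [inner_add_left, ha, hb, add_zero]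
    | smul c a _ ha => rw [inner_smul_left, ha, mul_zero]
  have hPv : ∀ n, K.starProjection (v (4 * n)) = v (4 * n) := fun n =>
    Submodule.starProjection_eq_self_iff.2 (hvK n)
  have hP0 : ∀ x : H, (∀ n, inner ℂ (v (4 * n)) x = 0) → K.starProjection x = 0 := fun x hx =>
    (Submodule.starProjection_apply_eq_zero_iff K).2 (hKo x hx)
  have hne : ∀ a b : ℕ, a ≠ b → inner ℂ (v a) (v b) = 0 := fun a b hab => by
    rw [orthonormal_iff_ite.mp hv, if_neg hab]
  have i0 : Function.Injective (fun n : ℕ => 4 * n) := fun a b h => by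
    simp only at h; omega
  have i1 : Function.Injective (fun n : ℕ => 4 * n + 1) := fun a b h => by
    simp only at h; omega
  have i2 : Function.Injective (fun n : ℕ => 4 * n + 2) := fun a b h => by
    simp only at h; omega
  have i3 : Function.Injective (fun n : ℕ => 4 * n + 3) := fun a b h => by
    simp only at h; omega
  set Q₁ := RR v (fun n => 4 * n) (fun n => 4 * n + 1) with hQ₁
  set Q₂ := RR v (fun n => 4 * n) (fun n => 4 * n + 2) with hQ₂
  have hRP : ∀ (τ : ℕ → ℕ) (x : H), RR v (fun n => 4 * n) τ (K.starProjection x) =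
      RR v (fun n => 4 * n) τ x := by
    intro τ x
    refine (RR_hasSum hv (fun n => 4 * n) τ (K.starProjection x)).unique ?_
    convert RR_hasSum hv (fun n => 4 * n) τ x using 4 with n
    rw [← Submodule.inner_starProjection_left_eq_right, hPv]
  refine ⟨K.starProjection, Q₁, Q₂, fun n => v (4 * n), fun n => v (4 * n + 3),
    fun n => innerSL ℂ (v (4 * n + 3)), ⟨⟨?_, ?_, ?_, ?_, ?_, ?_⟩, ?_, ?_, ?_, ?_, ?_, ?_, ?_⟩⟩
  · intro x
    exact Submodule.starProjection_eq_self_iff.2 (Submodule.starProjection_apply_mem K x)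
  · intro x
    apply hP0
    intro n
    exact RR_inner_zero hv _ _ _ _ (fun m => hne _ _ (by omega))
  · intro x
    apply hP0
    intro n
    exact RR_inner_zero hv _ _ _ _ (fun m => hne _ _ (by omega))
  · exact hRP _
  · exact hRP _
  · intro x y hxy
    have hx : ∀ n, inner ℂ (v (4 * n)) x = 0 := by
      intro n
      have h1 := congrArg (fun z => inner ℂ (v (4 * n + 1)) z) hxy
      simp only [inner_add_right, inner_zero_right] at h1
      rw [hQ₂, RR_inner_zero hv _ _ y (v (4 * n + 1)) (fun m => hne _ _ (by omega)), add_zero,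
        hQ₁] at h1
      have h2 := RR_inner_single hv (fun n => 4 * n) (fun n => 4 * n + 1) i1 x n
      rw [h1] at h2
      exact (mul_eq_zero.mp h2.symm).resolve_left (pow_ne_zero _ (by norm_num))
    have hy : ∀ n, inner ℂ (v (4 * n)) y = 0 := by
      intro n
      have h1 := congrArg (fun z => inner ℂ (v (4 * n + 2)) z) hxy
      simp only [inner_add_right, inner_zero_right] at h1
      rw [hQ₁, RR_inner_zero hv _ _ x (v (4 * n + 2)) (fun m => hne _ _ (by omega)), zero_add,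
        hQ₂] at h1
      have h2 := RR_inner_single hv (fun n => 4 * n) (fun n => 4 * n + 2) i2 y n
      rw [h1] at h2
      exact (mul_eq_zero.mp h2.symm).resolve_left (pow_ne_zero _ (by norm_num))
    exact ⟨hP0 x hx, hP0 y hy⟩
  · exact (hv.comp _ i0).linearIndependent
  · exact hPv
  · intro n x
    show inner ℂ (v (4 * n + 3)) (K.starProjection x) = 0
    rw [← Submodule.inner_starProjection_left_eq_right,
      hP0 (v (4 * n + 3)) (fun m => hne _ _ (by omega)), inner_zero_left]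
  · intro n x
    exact RR_inner_zero hv _ _ _ _ (fun m => hne _ _ (by omega))
  · intro n x
    exact RR_inner_zero hv _ _ _ _ (fun m => hne _ _ (by omega))
  · intro m n
    show inner ℂ (v (4 * m + 3)) (v (4 * n + 3)) = _
    rw [orthonormal_iff_ite.mp hv]
    by_cases hmn : m = n
    · subst hmn; simp
    · rw [if_neg (fun h => hmn (i3 h)), if_neg hmn]
  · intro ε hε
    obtain ⟨n, hn⟩ := exists_pow_lt_of_lt_one hε (show (1/2:ℝ) < 1 by norm_num)
    refine ⟨v (4 * n), hv.1 _, hPv n, ?_, ?_⟩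
    · have := RR_single hv (fun n => 4 * n) (fun n => 4 * n + 1) i0 n
      rw [hQ₁, this, norm_smul, hv.1]
      simp only [norm_pow, mul_one]
      have : ‖(1/2:ℂ)‖ = 1/2 := by norm_num
      rw [this]; exact hn.le
    · have := RR_single hv (fun n => 4 * n) (fun n => 4 * n + 2) i0 n
      rw [hQ₂, this, norm_smul, hv.1]
      simp only [norm_pow, mul_one]
      have : ‖(1/2:ℂ)‖ = 1/2 := by norm_num
      rw [this]; exact hn.le

end Main

section Result

/-- **Negative answer to Q1.** In every infinite dimensional complex Hilbert space `H` there is a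
function `A ∈ 𝒪(𝕋, GL(H))` which has exactly the partial indices `0` and `1`, with
`d₁ = d₂ = ∞`, and which is not equivalent to `F_V` for any decomposition `H = H₁ ⊕ H₂` into
closed subspaces and any `V ∈ L(H₁, H₂)`. -/
theorem result (H : Type u) [NormedAddCommGroup H] [InnerProductSpace ℂ H] [CompleteSpace H]
    (hH : ¬ FiniteDimensional ℂ H) :
    ∃ A : ℂ → (H →L[ℂ] H), MemO A ∧ PartialIndicesZeroOneInfinite A ∧
      ∀ F : ℂ → (H →L[ℂ] H), IsFV F → ¬ Equivalent A F := by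
  obtain ⟨P, Q₁, Q₂, e, f, ℓ, h⟩ := exists_data hH
  exact ⟨AA P Q₁ Q₂, h.memO, h.indices, fun F hF => h.not_equiv hF⟩

end Result

end Pool.Agent.Results.MP_d272b1_an.NotAllFV
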